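import Mathlib

set_option autoImplicit false

namespace Pool.Agent.Results.MP_90f83a_nt.NonIntegral

open Finset

/-- `IsSchmidt r s c` says that the rational sequence `c` is the sequence of coefficients
`c_k^{(r,s)}` of the problem: for every `n ≥ 0`,
`∑_{k=0}^n C(n,k)^r C(n+k,k)^r = ∑_{k=0}^n C(n,k)^s C(n+k,k)^s c_k`. -/
def IsSchmidt (r s : ℕ) (c : ℕ → ℚ) : Prop :=
  ∀ n : ℕ, ∑ k ∈ range (n + 1), ((n.choose k : ℕ) : ℚ) ^ r * (((n + k).choose k : ℕ) : ℚ) ^ r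
    = ∑ k ∈ range (n + 1), ((n.choose k : ℕ) : ℚ) ^ s * (((n + k).choose k : ℕ) : ℚ) ^ s * c k

/-- the product `C(n,k) C(n+k,k)` -/
def T (n k : ℕ) : ℕ := n.choose k * (n + k).choose k

lemma isSchmidt_iff (r s : ℕ) (c : ℕ → ℚ) :
    IsSchmidt r s c ↔
      ∀ n : ℕ, ∑ k ∈ range (n + 1), ((T n k : ℕ) : ℚ) ^ r
        = ∑ k ∈ range (n + 1), ((T n k : ℕ) : ℚ) ^ s * c k := by
  unfold IsSchmidt T
  simp only [Nat.cast_mul, mul_pow]

lemma T_self_pos (n : ℕ) : 0 < T n n := by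
  unfold T
  rw [Nat.choose_self, one_mul]
  exact Nat.choose_pos (by omega)

/-- the solution, by strong recursion -/
noncomputable def sch (r s : ℕ) : ℕ → ℚ
  | n => (∑ k ∈ range (n + 1), ((T n k : ℕ) : ℚ) ^ r
      - ∑ k : Fin n, ((T n k.1 : ℕ) : ℚ) ^ s * sch r s k.1) / ((T n n : ℕ) : ℚ) ^ s
termination_by n => n
decreasing_by exact k.2

lemma sch_spec (r s : ℕ) : IsSchmidt r s (sch r s) := by
  rw [isSchmidt_iff]
  intro n
  have hT : ((T n n : ℕ) : ℚ) ^ s ≠ 0 :=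
    pow_ne_zero _ (Nat.cast_ne_zero.mpr (T_self_pos n).ne')
  rw [Finset.sum_range_succ (fun k => ((T n k : ℕ) : ℚ) ^ s * sch r s k) n]
  conv_rhs => rw [sch.eq_def r s n]
  rw [mul_div_cancel₀ _ hT, ← Finset.sum_range (fun k => ((T n k : ℕ) : ℚ) ^ s * sch r s k)]
  ring

lemma unique (r s : ℕ) (c c' : ℕ → ℚ) (h : IsSchmidt r s c) (h' : IsSchmidt r s c') : c' = c := by
  rw [isSchmidt_iff] at h h'
  funext n
  induction n using Nat.strong_induction_on with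
  | _ n ih =>
    have hT : ((T n n : ℕ) : ℚ) ^ s ≠ 0 :=
      pow_ne_zero _ (Nat.cast_ne_zero.mpr (T_self_pos n).ne')
    have h1 := h n
    have h2 := h' n
    rw [h1, Finset.sum_range_succ, Finset.sum_range_succ] at h2
    have h3 : ∑ k ∈ range n, ((T n k : ℕ) : ℚ) ^ s * c k
        = ∑ k ∈ range n, ((T n k : ℕ) : ℚ) ^ s * c' k := by
      apply Finset.sum_congr rfl
      intro k hk
      rw [ih k (Finset.mem_range.mp hk)]
    rw [h3] at h2
    have h4 := add_left_cancel h2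
    exact (mul_left_cancel₀ hT h4).symm

/-- for `2 ≤ k ≤ p - 2` the prime `p` divides `C(p-2,k) C(p-2+k,k)` -/
lemma dvd_T (p k : ℕ) (hp : p.Prime) (hk2 : 2 ≤ k) (hkn : k ≤ p - 2) : p ∣ T (p - 2) k := by
  unfold T
  apply Dvd.dvd.mul_left
  apply hp.dvd_choose (by omega) (by omega) (by omega)

lemma T_zero (n : ℕ) : T n 0 = 1 := by simp [T]

lemma T_one (n : ℕ) : T n 1 = n * (n + 1) := by simp [T]

lemma key (r s : ℕ) (hs : 1 < s) (hr : s < r) (z : ℕ → ℤ)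
    (hz : ∀ n : ℕ, ∑ k ∈ range (n + 1), ((T n k : ℕ) : ℤ) ^ r
        = ∑ k ∈ range (n + 1), ((T n k : ℕ) : ℤ) ^ s * z k)
    (p : ℕ) (hp : p.Prime) (hp5 : 5 ≤ p) : p ∣ r - s := by
  obtain ⟨d, rfl⟩ : ∃ d, r = s + d := ⟨r - s, by omega⟩
  have hd : s + d - s = d := by omega
  rw [hd]
  have hz0 : z 0 = 1 := by
    have := hz 0
    simp [T_zero] at this
    exact this.symm
  have hz1 : z 1 = 2 ^ d := by
    have := hz 1
    rw [Finset.sum_range_succ, Finset.sum_range_succ, Finset.sum_range_succ,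
      Finset.sum_range_succ, Finset.sum_range_zero, Finset.sum_range_zero] at this
    rw [T_zero, T_one, hz0] at this
    norm_num at this
    rw [pow_add] at this
    have h2 : (2 : ℤ) ^ s ≠ 0 := by positivity
    exact (mul_left_cancel₀ h2 this).symm
  -- the identity for `n = p - 2`
  obtain ⟨q, rfl⟩ : ∃ q, p = q + 3 := ⟨p - 3, by omega⟩
  have hn := hz (q + 1)
  have hsplit : ∀ f : ℕ → ℤ, ∑ k ∈ range (q + 1 + 1), f k
      = f 0 + f 1 + ∑ k ∈ range q, f (k + 2) := by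
    intro f
    rw [Finset.sum_range_succ', Finset.sum_range_succ']
    ring
  rw [hsplit, hsplit] at hn
  have hdiv1 : (((q + 3 : ℕ) : ℤ)) ^ 2 ∣ ∑ k ∈ range q, ((T (q + 1) (k + 2) : ℕ) : ℤ) ^ (s + d) := by
    apply Finset.dvd_sum
    intro k hk
    have hk' := Finset.mem_range.mp hk
    have h1 : (q + 3) ∣ T (q + 1) (k + 2) := by
      have := dvd_T (q + 3) (k + 2) hp (by omega) (by omega)
      simpa using this
    have h2 : (((q + 3 : ℕ) : ℤ)) ∣ ((T (q + 1) (k + 2) : ℕ) : ℤ) := Int.natCast_dvd_natCast.mpr h1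
    exact (pow_dvd_pow_of_dvd h2 2).trans (pow_dvd_pow _ (by omega))
  have hdiv2 : (((q + 3 : ℕ) : ℤ)) ^ 2 ∣
      ∑ k ∈ range q, ((T (q + 1) (k + 2) : ℕ) : ℤ) ^ s * z (k + 2) := by
    apply Finset.dvd_sum
    intro k hk
    have hk' := Finset.mem_range.mp hk
    have h1 : (q + 3) ∣ T (q + 1) (k + 2) := by
      have := dvd_T (q + 3) (k + 2) hp (by omega) (by omega)
      simpa using this
    have h2 : (((q + 3 : ℕ) : ℤ)) ∣ ((T (q + 1) (k + 2) : ℕ) : ℤ) := Int.natCast_dvd_natCast.mpr h1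
    exact ((pow_dvd_pow_of_dvd h2 2).trans (pow_dvd_pow _ (by omega))).mul_right _
  rw [T_zero, hz0, hz1, T_one] at hn
  set P : ℤ := ((q + 3 : ℕ) : ℤ) with hP
  have hPq : ((((q + 1) * (q + 1 + 1) : ℕ)) : ℤ) = 2 + P * (P - 3) := by
    rw [hP]; push_cast; ring
  rw [hPq] at hn
  have hmain : P ^ 2 ∣ (2 + P * (P - 3)) ^ s * ((2 + P * (P - 3)) ^ d - 2 ^ d) := by
    have h : (2 + P * (P - 3)) ^ s * ((2 + P * (P - 3)) ^ d - 2 ^ d)
        = (∑ k ∈ range q, ((T (q + 1) (k + 2) : ℕ) : ℤ) ^ s * z (k + 2))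
          - ∑ k ∈ range q, ((T (q + 1) (k + 2) : ℕ) : ℤ) ^ (s + d) := by
      rw [pow_add (2 + P * (P - 3)) s d] at hn
      simp only [Nat.cast_one, one_pow, one_mul] at hn
      linear_combination hn
    rw [h]
    exact dvd_sub hdiv2 hdiv1
  have hPprime : Prime P := by
    rw [hP]; exact Nat.prime_iff_prime_int.mp hp
  have hcop2 : IsCoprime P 2 := by
    rw [hP]
    have : IsCoprime ((q + 3 : ℕ) : ℤ) ((2 : ℕ) : ℤ) := by
      rw [Nat.isCoprime_iff_coprime]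
      exact (Nat.coprime_primes hp Nat.prime_two).mpr (by omega)
    simpa using this
  have hcop : IsCoprime (P ^ 2) ((2 + P * (P - 3)) ^ s) := by
    apply IsCoprime.pow
    have := (IsCoprime.add_mul_left_right_iff (x := P) (y := 2) (z := P - 3)).mpr hcop2
    exact this
  have h1 : P ^ 2 ∣ (2 + P * (P - 3)) ^ d - 2 ^ d := hcop.dvd_of_dvd_mul_left hmain
  obtain ⟨k, hk⟩ := Polynomial.powAddExpansion (2 : ℤ) (P * (P - 3)) d
  rw [hk] at h1
  have h2 : P ^ 2 ∣ P * (3 * ((d : ℤ) * 2 ^ (d - 1))) := by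
    have h : P * (3 * ((d : ℤ) * 2 ^ (d - 1)))
        = P ^ 2 * ((d : ℤ) * 2 ^ (d - 1) + k * (P - 3) ^ 2)
          - (2 ^ d + (d : ℤ) * 2 ^ (d - 1) * (P * (P - 3)) + k * (P * (P - 3)) ^ 2 - 2 ^ d) := by
      ring
    rw [h]
    exact dvd_sub (dvd_mul_right _ _) h1
  have hP0 : P ≠ 0 := hPprime.ne_zero
  have h3 : P ∣ 3 * ((d : ℤ) * 2 ^ (d - 1)) := by
    rw [sq] at h2
    exact (mul_dvd_mul_iff_left hP0).mp h2
  have hcop3 : IsCoprime P 3 := by
    rw [hP]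
    have : IsCoprime ((q + 3 : ℕ) : ℤ) ((3 : ℕ) : ℤ) := by
      rw [Nat.isCoprime_iff_coprime]
      exact (Nat.coprime_primes hp Nat.prime_three).mpr (by omega)
    simpa using this
  have h4 : P ∣ (d : ℤ) * 2 ^ (d - 1) := hcop3.dvd_of_dvd_mul_left h3
  have h5 : P ∣ (d : ℤ) := (hcop2.pow_right).dvd_of_dvd_mul_right h4
  rw [hP] at h5
  exact Int.natCast_dvd_natCast.mp h5

/-- **Answer to Q1 (proved).**  Let `r > s > 1`.  The defining identity has exactly one rational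
solution `c = c^{(r,s)}`, and some `c_n^{(r,s)}` with `n ≥ 1` is not an integer. -/
theorem result (r s : ℕ) (hs : 1 < s) (hr : s < r) :
    ∃ c : ℕ → ℚ, IsSchmidt r s c ∧ (∀ c' : ℕ → ℚ, IsSchmidt r s c' → c' = c) ∧
      ∃ n : ℕ, 0 < n ∧ ∀ m : ℤ, c n ≠ (m : ℚ) := by
  refine ⟨sch r s, sch_spec r s, fun c' h' => unique r s _ _ (sch_spec r s) h', ?_⟩
  by_contra hcon
  push Not at hcon
  have hc := sch_spec r s
  rw [isSchmidt_iff] at hc
  have hint : ∀ n : ℕ, ∃ m : ℤ, sch r s n = (m : ℚ) := by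
    intro n
    rcases Nat.eq_zero_or_pos n with h | h
    · subst h
      refine ⟨1, ?_⟩
      have := hc 0
      simp [T_zero] at this
      rw [← this]; norm_num
    · exact hcon n h
  choose z hz using hint
  have hzz : ∀ n : ℕ, ∑ k ∈ range (n + 1), ((T n k : ℕ) : ℤ) ^ r
        = ∑ k ∈ range (n + 1), ((T n k : ℕ) : ℤ) ^ s * z k := by
    intro n
    have := hc n
    simp only [hz] at this
    exact_mod_cast this
  obtain ⟨p, hp1, hp⟩ := Nat.exists_infinite_primes (r + 5)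
  have hdvd := key r s hs hr z hzz p hp (by omega)
  have := Nat.le_of_dvd (by omega) hdvd
  omega

end Pool.Agent.Results.MP_90f83a_nt.NonIntegral
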